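import Pool.Agent.Helper211.HofD.Defs

set_option autoImplicit false

namespace HofD211

open Finset

lemma sgn_lt (a b c d : ℕ) : sgn a b c d < 8 := by
  unfold sgn; split_ifs <;> norm_num

lemma strat_spec (a b c d j : ℕ) (h1 : 10 ≤ j) (h2 : j < 130) :
    (strat a b c d j = 2 ∨ strat a b c d j = 3 ∨ strat a b c d j = 5 ∨ strat a b c d j = 9 ∨
      strat a b c d j = 14) ∧ 140 ≤ strat a b c d j * j ∧ strat a b c d j * (j + 1) ≤ 260 := by
  obtain ⟨k, rfl⟩ : ∃ k, j = k + 10 := ⟨j - 10, by omega⟩
  have := cert (sgn a b c d) (sgn_lt a b c d) k (by omega)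
  exact ⟨this.1, this.2.1, this.2.2.1⟩

lemma om_spec {l : ℕ} (h : l = 2 ∨ l = 3 ∨ l = 5 ∨ l = 9 ∨ l = 14) :
    1 ≤ e2 l + e3 l + e5 l + e7 l ∧ e2 l + e3 l + e5 l + e7 l ≤ 3 := by
  rcases h with rfl | rfl | rfl | rfl | rfl <;> simp [e2, e3, e5, e7]

lemma cell_spec {l j r : ℕ} (h1 : 140 ≤ l * j) (h2 : l * (j + 1) ≤ 260) (hr : r < l) :
    10 ≤ l * j + r - 130 ∧ l * j + r - 130 < 130 := by
  rw [mul_add, mul_one] at h2
  omega

lemma T_mono (w : ℕ) (f g : ℕ → ℕ → ℕ → ℕ → ℕ → ℝ)
    (hfg : ∀ a b c d j, w ≤ a + b + c + d → a + b + c + d < w + 3 → 10 ≤ j → j < 130 →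
      f a b c d j ≤ g a b c d j) :
    ∀ n a b c d j, a + b + c + d < w + 3 → w ≤ a + b + c + d + n → 10 ≤ j → j < 130 →
      T w f n a b c d j ≤ T w g n a b c d j := by
  intro n
  induction n with
  | zero =>
    intro a b c d j h1 h2 h3 h4
    exact hfg a b c d j (by omega) h1 h3 h4
  | succ n ih =>
    intro a b c d j h1 h2 h3 h4
    obtain ⟨hl, hl1, hl2⟩ := strat_spec a b c d j h3 h4
    have ho := om_spec hl
    simp only [T]
    split_ifs with hw
    · exact hfg a b c d j hw h1 h3 h4
    · refine div_le_div_of_nonneg_right (Finset.sum_le_sum fun r hr => ?_) (Nat.cast_nonneg _)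
      have hc := cell_spec hl1 hl2 (mem_range.mp hr)
      exact ih _ _ _ _ _ (by omega) (by omega) hc.1 hc.2

lemma T_super (w : ℕ) (Ψ : ℕ → ℕ → ℕ → ℕ → ℕ → ℝ)
    (hstep : ∀ a b c d j, 10 ≤ j → j < 130 →
      (∑ r ∈ range (strat a b c d j), Ψ (a + e2 (strat a b c d j)) (b + e3 (strat a b c d j))
        (c + e5 (strat a b c d j)) (d + e7 (strat a b c d j)) (strat a b c d j * j + r - 130)) / (strat a b c d j : ℝ) ≤
      Ψ a b c d j) :
    ∀ n a b c d j, 10 ≤ j → j < 130 → T w Ψ n a b c d j ≤ Ψ a b c d j := by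
  intro n
  induction n with
  | zero => intro a b c d j _ _; exact le_rfl
  | succ n ih =>
    intro a b c d j h3 h4
    obtain ⟨hl, hl1, hl2⟩ := strat_spec a b c d j h3 h4
    simp only [T]
    split_ifs with hw
    · exact le_rfl
    · refine le_trans (div_le_div_of_nonneg_right (Finset.sum_le_sum fun r hr => ?_)
        (Nat.cast_nonneg _)) (hstep a b c d j h3 h4)
      have hc := cell_spec hl1 hl2 (mem_range.mp hr)
      exact ih _ _ _ _ _ hc.1 hc.2

lemma T_const (w : ℕ) (x : ℝ) :
    ∀ n a b c d j, 10 ≤ j → j < 130 → T w (fun _ _ _ _ _ => x) n a b c d j = x := by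
  intro n
  induction n with
  | zero => intro a b c d j _ _; rfl
  | succ n ih =>
    intro a b c d j h3 h4
    obtain ⟨hl, hl1, hl2⟩ := strat_spec a b c d j h3 h4
    have hl0 : (strat a b c d j : ℝ) ≠ 0 := by
      have : strat a b c d j ≠ 0 := by omega
      exact_mod_cast this
    simp only [T]
    split_ifs with hw
    · rfl
    · rw [Finset.sum_congr rfl (g := fun _ => x)]
      · rw [Finset.sum_const, Finset.card_range, nsmul_eq_mul]
        field_simp
      · intro r hr
        have hc := cell_spec hl1 hl2 (mem_range.mp hr)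
        exact ih _ _ _ _ _ hc.1 hc.2

lemma T_smul (w : ℕ) (x : ℝ) (f : ℕ → ℕ → ℕ → ℕ → ℕ → ℝ) :
    ∀ n a b c d j, T w (fun a b c d j => x * f a b c d j) n a b c d j = x * T w f n a b c d j := by
  intro n
  induction n with
  | zero => intro a b c d j; rfl
  | succ n ih =>
    intro a b c d j
    simp only [T]
    split_ifs with hw
    · rfl
    · simp only [ih]
      rw [← Finset.mul_sum, mul_div_assoc]

lemma T_add (w : ℕ) (f g : ℕ → ℕ → ℕ → ℕ → ℕ → ℝ) :
    ∀ n a b c d j, T w (fun a b c d j => f a b c d j + g a b c d j) n a b c d j =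
      T w f n a b c d j + T w g n a b c d j := by
  intro n
  induction n with
  | zero => intro a b c d j; rfl
  | succ n ih =>
    intro a b c d j
    simp only [T]
    split_ifs with hw
    · rfl
    · simp only [ih]
      rw [Finset.sum_add_distrib, add_div]

lemma T_sum (w : ℕ) (S : Finset (ℕ × ℕ × ℕ × ℕ)) (f : ℕ × ℕ × ℕ × ℕ → ℕ → ℕ → ℕ → ℕ → ℕ → ℝ) :
    ∀ n a b c d j, T w (fun a b c d j => ∑ v ∈ S, f v a b c d j) n a b c d j =
      ∑ v ∈ S, T w (f v) n a b c d j := by
  intro n
  induction n with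
  | zero => intro a b c d j; rfl
  | succ n ih =>
    intro a b c d j
    simp only [T]
    split_ifs with hw
    · rfl
    · simp only [ih]
      rw [Finset.sum_comm, Finset.sum_div]

/-- the product `2^a 3^b 5^c 7^d` -/
def pr (a b c d : ℕ) : ℕ := 2 ^ a * 3 ^ b * 5 ^ c * 7 ^ d

lemma pr_pos (a b c d : ℕ) : 0 < pr a b c d := by unfold pr; positivity

lemma pr_mul {l : ℕ} (h : l = 2 ∨ l = 3 ∨ l = 5 ∨ l = 9 ∨ l = 14) (a b c d : ℕ) :
    pr (a + e2 l) (b + e3 l) (c + e5 l) (d + e7 l) = l * pr a b c d := by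
  unfold pr
  rcases h with rfl | rfl | rfl | rfl | rfl <;> simp [e2, e3, e5, e7, pow_add] <;> ring

lemma hof5 : HofN 5 := HofN.mul HofN.two HofN.three (by norm_num)
lemma hof9 : HofN 9 := HofN.mul HofN.two hof5 (by norm_num)
lemma hof14 : HofN 14 := HofN.mul HofN.three hof5 (by norm_num)
lemma hof17 : HofN 17 := HofN.mul HofN.two hof9 (by norm_num)

/-- a sub-cell that is reached with the product `2^a 3^b 5^c 7^d` -/
def Node (a b c d i : ℕ) : Prop :=
  HofN (17 * pr a b c d - i / 130) ∧ i < 130 * pr a b c d ∧ 10 ≤ i % 130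

lemma node_child {a b c d i : ℕ} (h : Node a b c d i) {r : ℕ} (hr : r < strat a b c d (i % 130)) :
    Node (a + e2 (strat a b c d (i % 130))) (b + e3 (strat a b c d (i % 130)))
      (c + e5 (strat a b c d (i % 130))) (d + e7 (strat a b c d (i % 130))) (strat a b c d (i % 130) * i + r) ∧
    (strat a b c d (i % 130) * i + r) % 130 = strat a b c d (i % 130) * (i % 130) + r - 130 := by
  obtain ⟨h1, h2, h3⟩ := h
  have h4 : i % 130 < 130 := Nat.mod_lt _ (by norm_num)
  obtain ⟨hl, hl1, hl2⟩ := strat_spec a b c d (i % 130) h3 h4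
  have hc := cell_spec hl1 hl2 hr
  have hpr := pr_mul hl a b c d
  generalize strat a b c d (i % 130) = l at *
  have hP := pr_pos a b c d
  generalize hPdef : pr a b c d = P at *
  have hi : i = 130 * (i / 130) + i % 130 := (Nat.div_add_mod i 130).symm
  generalize hq : i / 130 = q at *
  generalize hj : i % 130 = j at *
  have hqP : q < P := by omega
  have hli : l * i + r = (l * j + r - 130) + 130 * (l * q + 1) := by
    rw [hi, mul_add]
    have : l * (130 * q) = 130 * (l * q) := by ring
    rw [this]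
    have hlj : 140 ≤ l * j := hl1
    omega
  have hmod : (l * i + r) % 130 = l * j + r - 130 := by
    rw [hli, Nat.add_mul_mod_self_left, Nat.mod_eq_of_lt hc.2]
  have hdiv : (l * i + r) / 130 = l * q + 1 := by
    rw [hli, Nat.add_mul_div_left _ _ (by norm_num), Nat.div_eq_of_lt hc.2, zero_add]
  refine ⟨⟨?_, ?_, ?_⟩, hmod⟩
  · rw [hpr, hdiv]
    have hlH : HofN l := by
      rcases hl with rfl | rfl | rfl | rfl | rfl
      · exact HofN.two
      · exact HofN.three
      · exact hof5
      · exact hof9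
      · exact hof14
    have hl14 : l ≤ 14 := by omega
    have hne : l ≠ 17 * P - q := by omega
    have h5 := HofN.mul hlH h1 hne
    have h6 : l * (17 * P - q) - 1 = 17 * (l * P) - (l * q + 1) := by
      rw [Nat.mul_sub]
      have : l * (17 * P) = 17 * (l * P) := by ring
      rw [this]
      omega
    rwa [h6] at h5
  · rw [hpr]
    have h7 : l * (i + 1) ≤ l * (130 * P) := Nat.mul_le_mul_left _ h2
    have h8 : l * (130 * P) = 130 * (l * P) := by ring
    rw [mul_add, mul_one] at h7
    omega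
  · rw [hmod]; exact hc.1

/-- the counting lemma -/
lemma counting (w x y z t : ℕ) :
    ∀ n a b c d i, Node a b c d i →
      ∃ F : Finset ℕ, (∀ i' ∈ F, Node x y z t i' ∧ i * pr x y z t ≤ i' * pr a b c d ∧
        i' * pr a b c d < (i + 1) * pr x y z t) ∧
        (pr x y z t : ℝ) * T w (fun a b c d _ => if a = x ∧ b = y ∧ c = z ∧ d = t then 1 else 0) n a b c d
          (i % 130) ≤ pr a b c d * F.card := by
  have base : ∀ a b c d i, Node a b c d i →
      ∃ F : Finset ℕ, (∀ i' ∈ F, Node x y z t i' ∧ i * pr x y z t ≤ i' * pr a b c d ∧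
        i' * pr a b c d < (i + 1) * pr x y z t) ∧
        (pr x y z t : ℝ) * (if a = x ∧ b = y ∧ c = z ∧ d = t then (1 : ℝ) else 0) ≤
          pr a b c d * F.card := by
    intro a b c d i h
    by_cases hv : a = x ∧ b = y ∧ c = z ∧ d = t
    · obtain ⟨rfl, rfl, rfl, rfl⟩ := hv
      refine ⟨{i}, ?_, by simp⟩
      intro i' hi'
      rw [mem_singleton] at hi'
      subst hi'
      exact ⟨h, le_rfl, Nat.mul_lt_mul_of_pos_right (Nat.lt_succ_self _) (pr_pos _ _ _ _)⟩
    · exact ⟨∅, by simp, by simp [hv]⟩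
  intro n
  induction n with
  | zero => intro a b c d i h; exact base a b c d i h
  | succ n ih =>
    intro a b c d i h
    by_cases hw : w ≤ a + b + c + d
    · have hb := base a b c d i h
      simp only [T]
      rw [if_pos hw]
      exact hb
    · simp only [T]
      rw [if_neg hw]
      have h4 : i % 130 < 130 := Nat.mod_lt _ (by norm_num)
      obtain ⟨hl, hl1, hl2⟩ := strat_spec a b c d (i % 130) h.2.2 h4
      have hpr := pr_mul hl a b c d
      set l := strat a b c d (i % 130) with hldef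
      have hl0 : 0 < l := by omega
      have hl0' : (0 : ℝ) < l := by exact_mod_cast hl0
      have hch : ∀ r ∈ range l, Node (a + e2 l) (b + e3 l) (c + e5 l) (d + e7 l) (l * i + r) ∧
          (l * i + r) % 130 = l * (i % 130) + r - 130 := by
        intro r hr
        exact node_child h (mem_range.mp hr)
      have hex : ∀ r ∈ range l, ∃ F : Finset ℕ, (∀ i' ∈ F, Node x y z t i' ∧
          (l * i + r) * pr x y z t ≤ i' * (l * pr a b c d) ∧
          i' * (l * pr a b c d) < (l * i + r + 1) * pr x y z t) ∧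
          (pr x y z t : ℝ) * T w (fun a b c d _ => if a = x ∧ b = y ∧ c = z ∧ d = t then 1 else 0) n
            (a + e2 l) (b + e3 l) (c + e5 l) (d + e7 l) (l * (i % 130) + r - 130) ≤
            (l * pr a b c d : ℝ) * F.card := by
        intro r hr
        obtain ⟨F, hF1, hF2⟩ := ih _ _ _ _ _ (hch r hr).1
        refine ⟨F, ?_, ?_⟩
        · intro i' hi'
          have := hF1 i' hi'
          rw [hpr] at this
          exact this
        · rw [(hch r hr).2, hpr] at hF2
          push_cast at hF2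
          exact hF2
      choose! F hF1 hF2 using hex
      refine ⟨(range l).biUnion F, ?_, ?_⟩
      · intro i' hi'
        obtain ⟨r, hr, hir⟩ := mem_biUnion.mp hi'
        obtain ⟨g1, g2, g3⟩ := hF1 r hr i' hir
        have hr' := mem_range.mp hr
        refine ⟨g1, ?_, ?_⟩
        · have g4 : l * (i * pr x y z t) ≤ l * (i' * pr a b c d) := by
            calc l * (i * pr x y z t) = (l * i) * pr x y z t := by ring
              _ ≤ (l * i + r) * pr x y z t := Nat.mul_le_mul_right _ (Nat.le_add_right _ _)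
              _ ≤ i' * (l * pr a b c d) := g2
              _ = l * (i' * pr a b c d) := by ring
          exact Nat.le_of_mul_le_mul_left g4 hl0
        · have g4 : l * (i' * pr a b c d) < l * ((i + 1) * pr x y z t) := by
            calc l * (i' * pr a b c d) = i' * (l * pr a b c d) := by ring
              _ < (l * i + r + 1) * pr x y z t := g3
              _ ≤ (l * i + l) * pr x y z t := Nat.mul_le_mul_right _ (by omega)
              _ = l * ((i + 1) * pr x y z t) := by ring
          exact Nat.lt_of_mul_lt_mul_left g4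
      · have hdisj : ∀ r ∈ range l, ∀ s ∈ range l, r ≠ s → Disjoint (F r) (F s) := by
          have key : ∀ r ∈ range l, ∀ s ∈ range l, r < s → Disjoint (F r) (F s) := by
            intro r hr s hs hrs
            rw [Finset.disjoint_left]
            intro i' h1 h2
            obtain ⟨_, _, g3⟩ := hF1 r hr i' h1
            obtain ⟨_, g2, _⟩ := hF1 s hs i' h2
            have : (l * i + r + 1) * pr x y z t ≤ (l * i + s) * pr x y z t :=
              Nat.mul_le_mul_right _ (by omega)
            omega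
          intro r hr s hs hrs
          rcases lt_or_gt_of_ne hrs with hlt | hgt
          · exact key r hr s hs hlt
          · exact (key s hs r hr hgt).symm
        rw [card_biUnion hdisj]
        push_cast
        rw [mul_div_assoc', div_le_iff₀ hl0', mul_sum, mul_sum, sum_mul]
        refine Finset.sum_le_sum fun r hr => ?_
        have := hF2 r hr
        linarith

open Classical in
/-- the counting function -/
noncomputable def cnt (N : ℕ) : ℕ := ((Finset.Icc 1 N).filter HofN).card

lemma cnt_ge (w x y z t : ℕ) :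
    T w (fun a b c d _ => if a = x ∧ b = y ∧ c = z ∧ d = t then 1 else 0) w 0 0 0 0 10 / 130 *
      ((2 ^ x * 3 ^ y * 5 ^ z * 7 ^ t : ℕ) : ℝ) ≤ (cnt (17 * (2 ^ x * 3 ^ y * 5 ^ z * 7 ^ t)) : ℝ) := by
  classical
  have hn : Node 0 0 0 0 10 := ⟨by simpa [pr] using hof17, by simp [pr], by norm_num⟩
  obtain ⟨F, hF1, hF2⟩ := counting w x y z t w 0 0 0 0 10 hn
  have h1 : F.card ≤ 130 * (F.image (fun i => 17 * pr x y z t - i / 130)).card := by
    refine Finset.card_le_mul_card_image _ _ ?_
    intro m hm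
    obtain ⟨i0, hi0, hm0⟩ := mem_image.mp hm
    have hi0' := (hF1 i0 hi0).1.2.1
    have hsub : (F.filter (fun i => 17 * pr x y z t - i / 130 = m)) ⊆
        Finset.Ico (130 * (i0 / 130)) (130 * (i0 / 130) + 130) := by
      intro i hi
      have hi1 := (hF1 i (mem_filter.mp hi).1).1.2.1
      have hi2 := (mem_filter.mp hi).2
      rw [mem_Ico]
      omega
    refine (card_le_card hsub).trans ?_
    rw [Nat.card_Ico]
    omega
  have h2 : (F.image (fun i => 17 * pr x y z t - i / 130)).card ≤ cnt (17 * pr x y z t) := by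
    unfold cnt
    refine card_le_card ?_
    intro m hm
    obtain ⟨i0, hi0, rfl⟩ := mem_image.mp hm
    obtain ⟨g1, g2, g3⟩ := (hF1 i0 hi0).1
    refine mem_filter.mpr ⟨mem_Icc.mpr ⟨?_, Nat.sub_le _ _⟩, g1⟩
    omega
  have h3 : F.card ≤ 130 * cnt (17 * pr x y z t) := h1.trans (Nat.mul_le_mul_left _ h2)
  have h4 : (F.card : ℝ) ≤ 130 * (cnt (17 * pr x y z t) : ℝ) := by exact_mod_cast h3
  have h5 : pr 0 0 0 0 = 1 := by simp [pr]
  rw [h5] at hF2
  have h6 : (10 : ℕ) % 130 = 10 := by norm_num
  rw [h6] at hF2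
  have h7 : (2 ^ x * 3 ^ y * 5 ^ z * 7 ^ t : ℕ) = pr x y z t := rfl
  rw [h7]
  push_cast at hF2
  linarith

end HofD211
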