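import Pool.Agent.Helper211.HofD.Oper

set_option autoImplicit false

namespace HofD211

open Finset

theorem qq_pos : (0:ℝ) < qq := by unfold qq; norm_num
theorem ss_pos : (0:ℝ) < ss := by unfold ss; norm_num

theorem letters (l : ℕ) (hl : l = 2 ∨ l = 3 ∨ l = 5 ∨ l = 9 ∨ l = 14) :
    ss ^ (e2 l + e3 l + e5 l + e7 l) * qq ^ ((e2 l : ℤ) - e3 l) ≤ (U 0 l : ℝ) / 10000000 ∧
    ss ^ (e2 l + e3 l + e5 l + e7 l) * qq ^ (-((e2 l : ℤ) - e3 l)) ≤ (U 1 l : ℝ) / 10000000 ∧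
    ss ^ (e2 l + e3 l + e5 l + e7 l) * qq ^ (4 * (e5 l : ℤ) - e2 l - e3 l) ≤
      (U 2 l : ℝ) / 10000000 ∧
    ss ^ (e2 l + e3 l + e5 l + e7 l) * qq ^ (-(4 * (e5 l : ℤ) - e2 l - e3 l)) ≤
      (U 3 l : ℝ) / 10000000 ∧
    ss ^ (e2 l + e3 l + e5 l + e7 l) * qq ^ (16 * (e7 l : ℤ) - e2 l - e3 l) ≤
      (U 4 l : ℝ) / 10000000 ∧
    ss ^ (e2 l + e3 l + e5 l + e7 l) * qq ^ (-(16 * (e7 l : ℤ) - e2 l - e3 l)) ≤
      (U 5 l : ℝ) / 10000000 := by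
  rcases hl with rfl | rfl | rfl | rfl | rfl <;>
    simp only [e2, e3, e5, e7, U, uTab, ss, qq] <;> norm_num [zpow_neg]

theorem letters2 (l : ℕ) (hl : l = 2 ∨ l = 3 ∨ l = 5 ∨ l = 9 ∨ l = 14) :
    ss ^ (e2 l + e3 l + e5 l + e7 l) ≤ ss ^ 3 ∧
      100001 / 100000 ≤ ss ^ (e2 l + e3 l + e5 l + e7 l) ∧
    ((e2 l : ℤ) - e3 l) ≤ 20 ∧ (-((e2 l : ℤ) - e3 l)) ≤ 20 ∧
    (4 * (e5 l : ℤ) - e2 l - e3 l) ≤ 20 ∧ (-(4 * (e5 l : ℤ) - e2 l - e3 l)) ≤ 20 ∧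
    (16 * (e7 l : ℤ) - e2 l - e3 l) ≤ 20 ∧ (-(16 * (e7 l : ℤ) - e2 l - e3 l)) ≤ 20 := by
  rcases hl with rfl | rfl | rfl | rfl | rfl <;>
    simp only [e2, e3, e5, e7, ss] <;> norm_num

theorem termA (Om : ℕ) (e l : ℕ) (S Gj : ℕ) (X D : ℤ) (hl : 0 < l)
    (hU : ss ^ Om * qq ^ D ≤ (U e l : ℝ) / 10000000)
    (hc : U e l * S ≤ 10000000 * (l * Gj)) :
    ss ^ Om * (qq ^ (X + D) * (S : ℝ) / l) ≤ qq ^ X * (Gj : ℝ) := by
  have hl' : (0:ℝ) < l := by exact_mod_cast hl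
  have hq : (0:ℝ) < qq ^ X := zpow_pos qq_pos _
  rw [zpow_add₀ qq_pos.ne']
  have hc' : (U e l : ℝ) * S ≤ 10000000 * (l * Gj) := by exact_mod_cast hc
  have h1 : ss ^ Om * qq ^ D * (S : ℝ) / l ≤ Gj := by
    rw [div_le_iff₀ hl']
    have hS : (0:ℝ) ≤ S := Nat.cast_nonneg _
    have := mul_le_mul_of_nonneg_right hU hS
    nlinarith
  calc ss ^ Om * (qq ^ X * qq ^ D * (S : ℝ) / l) = qq ^ X * (ss ^ Om * qq ^ D * (S : ℝ) / l) := by
        ring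
    _ ≤ _ := mul_le_mul_of_nonneg_left h1 hq.le

theorem termB (Om : ℕ) (l : ℕ) (S : ℕ) (X D : ℤ) (hl : 0 < l) (hX : X ≤ 0)
    (hO : ss ^ Om ≤ ss ^ 3) (hD' : D ≤ 20) (hS : S ≤ l * 1100000) :
    ss ^ Om * (qq ^ (X + D) * (S : ℝ) / l) ≤ 2000000 := by
  have hl' : (0:ℝ) < l := by exact_mod_cast hl
  have hq : (0:ℝ) < qq ^ X := zpow_pos qq_pos _
  have hqD : (0:ℝ) < qq ^ D := zpow_pos qq_pos _
  have hq1 : qq ^ X ≤ 1 := zpow_le_one_of_nonpos₀ (by unfold qq; norm_num) hX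
  have hD : qq ^ D ≤ qq ^ (20:ℤ) := zpow_le_zpow_right₀ (by unfold qq; norm_num) hD'
  rw [zpow_add₀ qq_pos.ne']
  have hS' : (S : ℝ) / l ≤ 1100000 := by
    rw [div_le_iff₀ hl']
    have : (S : ℝ) ≤ l * 1100000 := by exact_mod_cast hS
    linarith
  have hS0 : (0:ℝ) ≤ (S : ℝ) / l := by positivity
  have h1 : qq ^ X * qq ^ D * (S : ℝ) / l ≤ 1 * qq ^ (20:ℤ) * 1100000 := by
    rw [mul_div_assoc]
    have h2 : qq ^ X * qq ^ D ≤ 1 * qq ^ (20:ℤ) := mul_le_mul hq1 hD hqD.le (by norm_num)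
    exact mul_le_mul h2 hS' hS0 (by have := zpow_pos qq_pos 20; positivity)
  have h0 : (0:ℝ) ≤ qq ^ X * qq ^ D * (S : ℝ) / l := by positivity
  have h20 : qq ^ (20:ℤ) ≤ 11 / 10 := by unfold qq; norm_num
  have h3 : ss ^ 3 ≤ 11 / 10 := by unfold ss; norm_num
  have h4 : qq ^ X * qq ^ D * (S : ℝ) / l ≤ 1210000 := by linarith
  calc ss ^ Om * (qq ^ X * qq ^ D * (S : ℝ) / l) ≤ (11 / 10) * 1210000 :=
        mul_le_mul (hO.trans h3) h4 h0 (by norm_num)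
    _ ≤ 2000000 := by norm_num

/-- one form -/
theorem pairStep (Om e l : ℕ) (X D : ℤ) (S0 S1 g0 g1 : ℕ) (hl : 0 < l)
    (u0 : ss ^ Om * qq ^ D ≤ (U e l : ℝ) / 10000000)
    (u1 : ss ^ Om * qq ^ (-D) ≤ (U (e + 1) l : ℝ) / 10000000)
    (hO : ss ^ Om ≤ ss ^ 3) (hD : D ≤ 20) (hD' : -D ≤ 20)
    (hS0 : S0 ≤ l * 1100000) (hS1 : S1 ≤ l * 1100000)
    (hc : 0 ≤ X ∧ U e l * S0 ≤ 10000000 * (l * g0) ∨
      X ≤ 0 ∧ U (e + 1) l * S1 ≤ 10000000 * (l * g1)) :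
    ss ^ Om * (qq ^ (X + D) * (S0 : ℝ) / l) + ss ^ Om * (qq ^ (-X + -D) * (S1 : ℝ) / l) ≤
      qq ^ X * (g0 : ℝ) + qq ^ (-X) * (g1 : ℝ) + 2000000 := by
  have p0 : 0 ≤ qq ^ X * (g0 : ℝ) := mul_nonneg (zpow_pos qq_pos _).le (Nat.cast_nonneg _)
  have p1 : 0 ≤ qq ^ (-X) * (g1 : ℝ) := mul_nonneg (zpow_pos qq_pos _).le (Nat.cast_nonneg _)
  rcases hc with ⟨hX, hc⟩ | ⟨hX, hc⟩
  · have t1 := termA Om e l S0 g0 X D hl u0 hc
    have t2 := termB Om l S1 (-X) (-D) hl (by omega) hO hD' hS1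
    linarith
  · have t1 := termA Om (e + 1) l S1 g1 (-X) (-D) hl u1 hc
    have t2 := termB Om l S0 X D hl hX hO hD hS0
    linarith

theorem sgn_spec (a b c d : ℕ) :
    (sgn a b c d % 2 = 0 ∧ 0 ≤ X1 a b c d ∨ sgn a b c d % 2 = 1 ∧ X1 a b c d ≤ 0) ∧
    (2 + sgn a b c d / 2 % 2 = 2 ∧ 0 ≤ X2 a b c d ∨
      2 + sgn a b c d / 2 % 2 = 3 ∧ X2 a b c d ≤ 0) ∧
    (4 + sgn a b c d / 4 = 4 ∧ 0 ≤ X3 a b c d ∨ 4 + sgn a b c d / 4 = 5 ∧ X3 a b c d ≤ 0) := by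
  unfold sgn
  generalize X1 a b c d = x1
  generalize X2 a b c d = x2
  generalize X3 a b c d = x3
  split_ifs <;> omega

/-- one step of the supermartingale. -/
theorem onestep (a b c d j : ℕ) (h1 : 10 ≤ j) (h2 : j < 130) :
    (∑ r ∈ range (strat a b c d j), Psi (a + e2 (strat a b c d j)) (b + e3 (strat a b c d j))
        (c + e5 (strat a b c d j)) (d + e7 (strat a b c d j))
        (strat a b c d j * j + r - 130)) / (strat a b c d j : ℝ) ≤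
      Psi a b c d j := by
  obtain ⟨k, rfl⟩ : ∃ k, j = k + 10 := ⟨j - 10, by omega⟩
  have hk : k < 120 := by omega
  have hs : sgn a b c d < 8 := sgn_lt a b c d
  obtain ⟨hlet, hlo, hhi, hc1, hc2, hc3⟩ := cert (sgn a b c d) hs k hk
  obtain ⟨hX1, hX2, hX3⟩ := sgn_spec a b c d
  have hstrat : strat a b c d (k + 10) = pol (sgn a b c d) (k + 10) := rfl
  rw [hstrat]
  generalize pol (sgn a b c d) (k + 10) = l at hlet hlo hhi hc1 hc2 hc3 ⊢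
  have hl : 0 < l := by omega
  have hl' : (0:ℝ) < l := by exact_mod_cast hl
  obtain ⟨u0, u1, u2, u3, u4, u5⟩ := letters l hlet
  obtain ⟨hO, hO1, d1, d1', d2, d2', d3, d3'⟩ := letters2 l hlet
  set Om := e2 l + e3 l + e5 l + e7 l with hOm
  set D1 : ℤ := (e2 l : ℤ) - e3 l with hD1
  set D2 : ℤ := 4 * (e5 l : ℤ) - e2 l - e3 l with hD2
  set D3 : ℤ := 16 * (e7 l : ℤ) - e2 l - e3 l with hD3
  have hx1 : X1 (a + e2 l) (b + e3 l) (c + e5 l) (d + e7 l) = X1 a b c d + D1 := by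
    unfold X1; push_cast; ring
  have hx2 : X2 (a + e2 l) (b + e3 l) (c + e5 l) (d + e7 l) = X2 a b c d + D2 := by
    unfold X2; push_cast; ring
  have hx3 : X3 (a + e2 l) (b + e3 l) (c + e5 l) (d + e7 l) = X3 a b c d + D3 := by
    unfold X3; push_cast; ring
  have hSb : ∀ e < 6, (∑ r ∈ range l, G e (l * (k + 10) + r - 130)) ≤ l * 1100000 := by
    intro e he
    have := Finset.sum_le_card_nsmul (range l) (fun r => G e (l * (k + 10) + r - 130)) 1100000 (by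
      intro r hr
      have hr' := Finset.mem_range.1 hr
      have hle : l * (k + 10) + r - 130 = (l * (k + 10) + r - 140) + 10 := by omega
      have hlt : l * (k + 10) + r - 140 < 120 := by
        have : l * (k + 11) = l * (k + 10) + l := by ring
        omega
      show G e (l * (k + 10) + r - 130) ≤ 1100000
      rw [hle]
      exact (G_bound e he _ hlt).2)
    simpa using this
  have hsum : (∑ r ∈ range l, Psi (a + e2 l) (b + e3 l) (c + e5 l) (d + e7 l)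
        (l * (k + 10) + r - 130)) / (l : ℝ)
      = ss ^ (a + b + c + d) * ((ss ^ Om * (qq ^ (X1 a b c d + D1) * ((∑ r ∈ range l, G 0 (l * (k + 10) + r - 130) : ℕ) : ℝ) / l)
        + ss ^ Om * (qq ^ (-X1 a b c d + -D1) * ((∑ r ∈ range l, G 1 (l * (k + 10) + r - 130) : ℕ) : ℝ) / l))
        + (ss ^ Om * (qq ^ (X2 a b c d + D2) * ((∑ r ∈ range l, G 2 (l * (k + 10) + r - 130) : ℕ) : ℝ) / l)
        + ss ^ Om * (qq ^ (-X2 a b c d + -D2) * ((∑ r ∈ range l, G 3 (l * (k + 10) + r - 130) : ℕ) : ℝ) / l))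
        + (ss ^ Om * (qq ^ (X3 a b c d + D3) * ((∑ r ∈ range l, G 4 (l * (k + 10) + r - 130) : ℕ) : ℝ) / l)
        + ss ^ Om * (qq ^ (-X3 a b c d + -D3) * ((∑ r ∈ range l, G 5 (l * (k + 10) + r - 130) : ℕ) : ℝ) / l))
        - ss ^ Om * 10 ^ 12) := by
    have e1 : -(X1 a b c d + D1) = -X1 a b c d + -D1 := by ring
    have e2' : -(X2 a b c d + D2) = -X2 a b c d + -D2 := by ring
    have e3' : -(X3 a b c d + D3) = -X3 a b c d + -D3 := by ring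
    have e4' : a + e2 l + (b + e3 l) + (c + e5 l) + (d + e7 l) = (a + b + c + d) + Om := by
      rw [hOm]; ring
    unfold Psi Phi
    rw [hx1, hx2, hx3, e1, e2', e3', e4', pow_add]
    rw [← Finset.mul_sum, Finset.sum_sub_distrib, Finset.sum_add_distrib, Finset.sum_add_distrib,
      Finset.sum_add_distrib, Finset.sum_add_distrib, Finset.sum_add_distrib,
      ← Finset.mul_sum, ← Finset.mul_sum, ← Finset.mul_sum,
      ← Finset.mul_sum, ← Finset.mul_sum, ← Finset.mul_sum,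
      Finset.sum_const, Finset.card_range, nsmul_eq_mul]
    push_cast
    field_simp
    try ring
  rw [hsum]
  unfold Psi
  refine mul_le_mul_of_nonneg_left ?_ (pow_nonneg ss_pos.le _)
  have g1 := pairStep Om 0 l (X1 a b c d) D1 _ _ (G 0 (k + 10)) (G 1 (k + 10)) hl u0 u1 hO d1 d1'
    (hSb 0 (by norm_num)) (hSb 1 (by norm_num)) (by
      rcases hX1 with ⟨he, hX⟩ | ⟨he, hX⟩
      · rw [he] at hc1; exact Or.inl ⟨hX, hc1⟩
      · rw [he] at hc1; exact Or.inr ⟨hX, hc1⟩)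
  have g2 := pairStep Om 2 l (X2 a b c d) D2 _ _ (G 2 (k + 10)) (G 3 (k + 10)) hl u2 u3 hO d2 d2'
    (hSb 2 (by norm_num)) (hSb 3 (by norm_num)) (by
      rcases hX2 with ⟨he, hX⟩ | ⟨he, hX⟩
      · rw [he] at hc2; exact Or.inl ⟨hX, hc2⟩
      · rw [he] at hc2; exact Or.inr ⟨hX, hc2⟩)
  have g3 := pairStep Om 4 l (X3 a b c d) D3 _ _ (G 4 (k + 10)) (G 5 (k + 10)) hl u4 u5 hO d3 d3'
    (hSb 4 (by norm_num)) (hSb 5 (by norm_num)) (by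
      rcases hX3 with ⟨he, hX⟩ | ⟨he, hX⟩
      · rw [he] at hc3; exact Or.inl ⟨hX, hc3⟩
      · rw [he] at hc3; exact Or.inr ⟨hX, hc3⟩)
  unfold Phi
  have h9 : (1 + 1 / 100000) * (10:ℝ) ^ 12 ≤ ss ^ Om * 10 ^ 12 :=
    mul_le_mul_of_nonneg_right (by linarith) (by norm_num)
  linarith

end HofD211
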